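import Mathlib
import Pool.Prelude.Def_F_7546141c
import Pool.Agent.Helper352.Gap
import Pool.Agent.Helper352.Rank

set_option autoImplicit false

open Filter

namespace Pool.Agent.Results.MP_62a313_nt.LowerDensityZero

/-- Unconditionally, the set of `n` with `gcd (a n) (L n) = 1` has lower natural density zero. -/
theorem result :
    Filter.liminf (fun N : ℕ =>
      ((((Finset.Icc 1 N).filter
        (fun n => Nat.gcd (Nbb67e70a.a n) (Nbb67e70a.L n) = 1)).card : ℝ) / (N : ℝ))) atTop = 0 := by
  set u : ℕ → ℝ := fun N : ℕ =>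
      ((((Finset.Icc 1 N).filter
        (fun n => Nat.gcd (Nbb67e70a.a n) (Nbb67e70a.L n) = 1)).card : ℝ) / (N : ℝ)) with hu
  have h0 : ∀ N, 0 ≤ u N := fun N => by simp only [hu]; positivity
  have h1 : ∀ N, u N ≤ 1 := by
    intro N
    simp only [hu]
    rcases Nat.eq_zero_or_pos N with h | h
    · subst h; simp
    · have hN : (0 : ℝ) < N := by exact_mod_cast h
      rw [div_le_one hN]
      have : ((Finset.Icc 1 N).filter
        (fun n => Nat.gcd (Nbb67e70a.a n) (Nbb67e70a.L n) = 1)).card ≤ N := by
        refine (Finset.card_filter_le _ _).trans ?_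
        simp
      exact_mod_cast this
  have hbdd : IsBoundedUnder (· ≥ ·) atTop u := isBoundedUnder_of ⟨0, fun N => h0 N⟩
  have hbdd' : IsBoundedUnder (· ≤ ·) atTop u := isBoundedUnder_of ⟨1, fun N => h1 N⟩
  apply le_antisymm
  · apply le_of_forall_pos_le_add
    intro ε hε
    rw [zero_add]
    apply liminf_le_of_frequently_le _ hbdd
    rw [frequently_atTop]
    intro N0
    obtain ⟨K, hK⟩ := exists_nat_gt (1 / ε)
    have hKpos : (0 : ℝ) < K := lt_trans (by positivity) hK
    have hK1 : 1 ≤ K := by exact_mod_cast hKpos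
    obtain ⟨X, hX1, hX2⟩ := Pool.Agent.Helper352.gap_nat Pool.Agent.Helper352.inv_log_finite K (N0 + 1)
    have hXK : X ≤ K * X := Nat.le_mul_of_pos_left X hK1
    refine ⟨K * X, by omega, ?_⟩
    have hXpos : (0 : ℝ) < X := by
      have : 0 < X := by omega
      exact_mod_cast this
    have hcard : ((Finset.Icc 1 (K * X)).filter
        (fun n => Nat.gcd (Nbb67e70a.a n) (Nbb67e70a.L n) = 1)).card ≤ X := by
      calc ((Finset.Icc 1 (K * X)).filter
          (fun n => Nat.gcd (Nbb67e70a.a n) (Nbb67e70a.L n) = 1)).card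
          ≤ (Finset.Icc 1 X).card := by
            apply Finset.card_le_card
            intro n hn
            rw [Finset.mem_filter, Finset.mem_Icc] at hn
            rw [Finset.mem_Icc]
            refine ⟨hn.1.1, ?_⟩
            by_contra hcon
            push Not at hcon
            exact hX2 n hcon.le hn.1.2 hn.2
        _ = X := by simp
    simp only [hu]
    have hcard' : ((((Finset.Icc 1 (K * X)).filter
        (fun n => Nat.gcd (Nbb67e70a.a n) (Nbb67e70a.L n) = 1)).card : ℕ) : ℝ) ≤ X := by
      exact_mod_cast hcard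
    push_cast
    rw [div_le_iff₀ (by positivity)]
    have h2 : 1 < ε * K := by
      rw [div_lt_iff₀ hε] at hK
      linarith
    calc _ ≤ (X : ℝ) := hcard'
      _ = 1 * X := (one_mul _).symm
      _ ≤ (ε * K) * X := mul_le_mul_of_nonneg_right h2.le hXpos.le
      _ = ε * (K * X) := by ring
  · exact le_liminf_of_le hbdd'.isCoboundedUnder_ge (Eventually.of_forall h0)

end Pool.Agent.Results.MP_62a313_nt.LowerDensityZero
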