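import Mathlib
import Pool.Prelude.Def_F_7546141c
import Pool.Agent.Helper352.Gap
import Pool.Agent.Helper352.Rank

set_option autoImplicit false

namespace Pool.Agent.Results.MP_62a313_nt.MultiplicativeGaps

/-- Unconditionally, the set of `n` with `gcd (a n) (L n) = 1` misses arbitrarily long
multiplicative intervals `[X, K X]`, with `X` arbitrarily large. -/
theorem result :
    ∀ K X0 : ℕ, ∃ X : ℕ, X0 ≤ X ∧ ∀ n : ℕ, X ≤ n → n ≤ K * X →
      1 < Nat.gcd (Nbb67e70a.a n) (Nbb67e70a.L n) := by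
  intro K X0
  obtain ⟨X, hX1, hX2⟩ := Pool.Agent.Helper352.gap_nat Pool.Agent.Helper352.inv_log_finite K X0
  refine ⟨X, hX1, ?_⟩
  intro n hn1 hn2
  have h1 := hX2 n hn1 hn2
  have h2 : 0 < Nat.gcd (Nbb67e70a.a n) (Nbb67e70a.L n) :=
    Nat.gcd_pos_of_pos_right _ (Pool.Agent.Helper352.L_pos n)
  omega

end Pool.Agent.Results.MP_62a313_nt.MultiplicativeGaps
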